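import Mathlib
import Pool.Agent.Y868.TG.B2

/-!
# Chowla's conjecture in almost all progressions, for almost all quadratic perturbations

Let `s_1, …, s_k` be arbitrary sequences of integers, for instance the values of given polynomials. For all
but a proportion `(log x)^(-U)` of the choices of the coefficients `a_i`, `b_i`, the values of the
Liouville function at the `f_i(m) = s_i(m) + a_i m² + b_i m` are equidistributed in almost all residue
classes to almost all moduli `q ≤ x / (log x)^(U+3)`, in mean square and with any power of `log x` saved,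
jointly for the `k` sequences, in all windows `(u, v] ⊆ [1, x]` at once and with arbitrary bounded weights.
-/

set_option autoImplicit false

namespace Pool.Agent.Results.MP_648c71_nt.AlmostAllProgressions

open Finset

/-- the Liouville function: `λ(n) = (-1)^Ω(|n|)` for `n ≠ 0`, and `λ(0) = 0` -/
noncomputable def lam (n : ℤ) : ℝ := if n = 0 then 0 else (-1) ^ ArithmeticFunction.cardFactors n.natAbs

/-- the value `f_i(m) = s_i(m) + a_i m² + b_i m` -/
def f {k : ℕ} (s : Fin k → ℕ → ℤ) (e : Fin k → ℕ × ℕ) (i : Fin k) (m : ℕ) : ℤ :=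
  s i m + ((e i).1 : ℤ) * m ^ 2 + ((e i).2 : ℤ) * m

/-- **Almost all progressions.** Let `k, U, K ≥ 0`. There are `C` and `x₀` such that the following holds
for all `x ≥ x₀`, all `D`, `B` with `(log x)^C ≤ D ≤ x^K` and `D x (log x)^(-K) ≤ B ≤ D x (log x)^K`, all
sequences `s_1, …, s_k` of integers with `|s_i(m)| ≤ B x (log x)^K` for `1 ≤ m ≤ x`, and all functions
`w_t`, `t < N ≤ (log x)^K`, with `|w_t| ≤ 1`. For all but `(D B)^k / (log x)^U` of the
`e = ((a_1, b_1), …, (a_k, b_k))` with `1 ≤ a_i ≤ D` and `1 ≤ b_i ≤ B`, for all `t < N`, all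
`u ≤ v ≤ x` and all `Q ≤ x / (log x)^(U+3)`: for every nonempty set `I` of indices, the sum over all moduli
`q ≤ Q` and all residues `r` modulo `q` of the squares of the sums of the `w_t(m) ∏_{i ∈ I} λ(f_i(m))` over
the `m ∈ (u, v]` congruent to `r` modulo `q` is at most `x² / (log x)^U`; and for all signs
`ε_1, …, ε_k = ±1`, the same bound holds for the squares of the differences between the sum of the `w_t(m)`
over the `m ∈ (u, v]` congruent to `r` modulo `q` with `λ(f_i(m)) = ε_i` for all `i`, and `2^(-k)` times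
the sum of the `w_t(m)` over all `m ∈ (u, v]` congruent to `r` modulo `q`. -/
theorem result (k U K : ℕ) : ∃ C x₀ : ℕ, ∀ x : ℕ, x₀ ≤ x →
    ∀ D B : ℕ, Real.log x ^ C ≤ D → (D : ℝ) ≤ (x : ℝ) ^ K →
    (D : ℝ) * x ≤ B * Real.log x ^ K → (B : ℝ) ≤ D * x * Real.log x ^ K →
    ∀ s : Fin k → ℕ → ℤ, (∀ i, ∀ m ∈ Icc 1 x, ((|s i m| : ℤ) : ℝ) ≤ B * x * Real.log x ^ K) →
    ∀ N : ℕ, (N : ℝ) ≤ Real.log x ^ K → ∀ w : ℕ → ℕ → ℝ, (∀ t m, |w t m| ≤ 1) →
    ∃ Bad ⊆ Fintype.piFinset (fun _ : Fin k => Icc 1 D ×ˢ Icc 1 B),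
      (#Bad : ℝ) ≤ ((D : ℝ) * B) ^ k / Real.log x ^ U ∧
      ∀ e ∈ Fintype.piFinset (fun _ : Fin k => Icc 1 D ×ˢ Icc 1 B), e ∉ Bad →
        ∀ t < N, ∀ u v : ℕ, u ≤ v → v ≤ x → ∀ Q : ℕ, (Q : ℝ) * Real.log x ^ (U + 3) ≤ x →
          (∀ I : Finset (Fin k), I.Nonempty →
            ∑ q ∈ Icc 1 Q, ∑ r ∈ range q,
              (∑ m ∈ (Ioc u v).filter (fun m => m % q = r), w t m * ∏ i ∈ I, lam (f s e i m)) ^ 2 ≤
                x ^ 2 / Real.log x ^ U) ∧
          ∀ ε : Fin k → ℝ, (∀ i, ε i = 1 ∨ ε i = -1) →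
            ∑ q ∈ Icc 1 Q, ∑ r ∈ range q,
              (∑ m ∈ (Ioc u v).filter (fun m => m % q = r ∧ ∀ i, lam (f s e i m) = ε i), w t m -
                (1 / 2) ^ k * ∑ m ∈ (Ioc u v).filter (fun m => m % q = r), w t m) ^ 2 ≤
                  x ^ 2 / Real.log x ^ U := by
  have h : ∀ (s : Fin k → ℕ → ℤ) (e : Fin k → ℕ × ℕ) (i : Fin k) (m : ℕ),
      f s e i m = Pool.Agent.Y868.TD.fl s e i m := by
    intro s e i m
    unfold f Pool.Agent.Y868.TD.fl
    ring
  simp_rw [h]
  exact Pool.Agent.Y868.TG.bdhL k U K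

end Pool.Agent.Results.MP_648c71_nt.AlmostAllProgressions
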