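import Pool.Agent.Y956.CP.Lio
import Pool.Agent.Y956.CP.Scd

/-!
# The Liouville function at the values of products of linear polynomials: one displaced factor and a dilated
tuple of factors
-/

set_option autoImplicit false

namespace Pool.Agent.Results.MP_648c71_nt.DilatedLinearFactors

open Finset Polynomial

/-- the Liouville function on the integers, `lam (-m) = lam m`, `lam 0 = 0` -/
noncomputable def lam (m : ℤ) : ℝ := if m = 0 then 0 else (-1) ^ (ArithmeticFunction.cardFactors m.natAbs)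

/-- the logarithmic average over the scales `Y < x ≤ W` -/
noncomputable def scales (φ : ℕ → ℝ) (Y W : ℕ) : ℝ :=
  (1 / Real.log ((W : ℝ) / Y)) * ∑ x ∈ Ioc Y W, (1 / (x : ℝ)) * φ x

/-- the average of `lam (f t)` over `1 ≤ t ≤ x`, `t` congruent to `r` modulo `q` -/
noncomputable def ave (f : ℤ[X]) (q : ℕ) (r : ℤ) (x : ℕ) : ℝ :=
  (1 / (x : ℝ)) * ∑ t ∈ (Icc 1 x).filter (fun t : ℕ => (t : ℤ) ≡ r [ZMOD q]), lam (f.eval (t : ℤ))

/-- the product of the displaced factor `a₀ T + d` and of the factors `a i * T + h * b i` -/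
noncomputable def pol {k : ℕ} (a : Fin k → ℕ) (b : Fin k → ℤ) (a₀ h : ℕ) (d : ℤ) : ℤ[X] :=
  (C (a₀ : ℤ) * X + C d) * ∏ i, (C (a i : ℤ) * X + C ((h : ℤ) * b i))

open Classical in
/-- the exceptional pairs `(h, d)` for the scales between `Y` and `W` -/
noncomputable def exc {k : ℕ} (a : Fin k → ℕ) (b : Fin k → ℤ) (a₀ q : ℕ) (r : ℤ) (ε : ℝ) (S : Finset (ℕ × ℤ))
    (Y W : ℕ) : Finset (ℕ × ℤ) :=
  S.filter (fun e => ε < scales (fun x => |ave (pol a b a₀ e.1 e.2) q r x|) Y W)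

lemma lam_mul (m n : ℤ) : lam (m * n) = lam m * lam n := by
  unfold lam
  by_cases hm : m = 0
  · simp [hm]
  · by_cases hn : n = 0
    · simp [hn]
    · rw [if_neg (mul_ne_zero hm hn), if_neg hm, if_neg hn, Int.natAbs_mul,
        ArithmeticFunction.cardFactors_mul (Int.natAbs_ne_zero.2 hm) (Int.natAbs_ne_zero.2 hn), pow_add]

lemma lam_one : lam 1 = 1 := by
  unfold lam
  simp

lemma lam_prod {ι : Type} (s : Finset ι) (f : ι → ℤ) : lam (∏ i ∈ s, f i) = ∏ i ∈ s, lam (f i) := by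
  classical
  induction s using Finset.induction_on with
  | empty => simp [lam_one]
  | insert i s hi ih => rw [prod_insert hi, prod_insert hi, lam_mul, ih]

lemma lam_abs (m : ℤ) : |lam m| ≤ 1 := by
  unfold lam
  split_ifs
  · simp
  · rw [abs_pow, abs_neg, abs_one, one_pow]

lemma lam_pos (m : ℤ) (hm : 0 < m) : lam m = Pool.Agent.Y956.CP.lamZ m := by
  unfold lam Pool.Agent.Y956.CP.lamZ
  rw [if_neg hm.ne', if_pos hm]
  congr 2
  omega

lemma eval_pol {k : ℕ} (a : Fin k → ℕ) (b : Fin k → ℤ) (a₀ h : ℕ) (d : ℤ) (t : ℕ) :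
    lam ((pol a b a₀ h d).eval (t : ℤ)) = lam (a₀ * t + d) * ∏ i, lam (a i * t + h * b i) := by
  unfold pol
  rw [eval_mul, lam_mul, eval_prod, lam_prod]
  congr 1
  · simp
  · apply prod_congr rfl
    intro i _
    simp

/-- the weight of the progression -/
noncomputable def wt (q : ℕ) (r : ℤ) (n : ℕ) : ℂ := if (n : ℤ) ≡ r [ZMOD q] then 1 else 0

lemma wt_norm (q : ℕ) (r : ℤ) (n : ℕ) : ‖wt q r n‖ ≤ 1 := by
  unfold wt
  split_ifs <;> simp

lemma wt_lpq (q A : ℕ) (hq : 1 ≤ q) (hqA : q ≤ A) (r : ℤ) (δ : ℝ) (hδ : 0 ≤ δ) :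
    Pool.Agent.Y956.CP.LPQ (wt q r) A δ := by
  refine ⟨wt_norm q r, q, hq, hqA, wt q r, wt_norm q r, fun n => ?_, 0, fun x _ _ => by simpa using hδ⟩
  unfold wt
  have h : ((n % q : ℕ) : ℤ) ≡ (n : ℤ) [ZMOD q] := by
    push_cast
    exact Int.mod_modEq _ _
  have e : ((n : ℤ) ≡ r [ZMOD q]) ↔ (((n % q : ℕ) : ℤ) ≡ r [ZMOD q]) :=
    ⟨fun h1 => h.trans h1, fun h1 => h.symm.trans h1⟩
  simp only [e]

lemma ave_cor {k : ℕ} (a : Fin k → ℕ) (b : Fin k → ℤ) (a₀ : ℕ) (ha : ∀ i, 1 ≤ a i) (ha₀ : 1 ≤ a₀) (q : ℕ)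
    (r : ℤ) (h : ℕ) (d : ℤ) : ∃ M : ℝ, 0 ≤ M ∧ ∀ x : ℕ, 1 ≤ x → |ave (pol a b a₀ h d) q r x| ≤
      ‖Pool.Agent.Y956.CP.cor (wt q r) a b a₀ h d x‖ + M * (1 / (x : ℝ)) := by
  classical
  set N : ℕ := d.natAbs + ∑ i, (h * b i : ℤ).natAbs with hN
  refine ⟨2 * N, by positivity, fun x hx => ?_⟩
  have hx0 : (0 : ℝ) < x := by exact_mod_cast hx
  set Φ : ℕ → ℝ := fun t => lam (a₀ * t + d) * ∏ i, lam (a i * t + h * b i) with hΦ
  set Ψ : ℕ → ℝ := fun t => Pool.Agent.Y956.CP.lamZ (a₀ * t + d) *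
    ∏ i, Pool.Agent.Y956.CP.lamZ (a i * t + h * b i) with hΨ
  have hΦ1 : ∀ t, |Φ t| ≤ 1 := by
    intro t
    rw [hΦ]
    simp only [abs_mul, abs_prod]
    exact mul_le_one₀ (lam_abs _) (by positivity) (prod_le_one (fun _ _ => abs_nonneg _) (fun _ _ => lam_abs _))
  have hΨ1 : ∀ t, |Ψ t| ≤ 1 := by
    intro t
    rw [hΨ]
    simp only [abs_mul, abs_prod]
    exact mul_le_one₀ (Pool.Agent.Y956.CP.lamZ_abs _) (by positivity)
      (prod_le_one (fun _ _ => abs_nonneg _) (fun _ _ => Pool.Agent.Y956.CP.lamZ_abs _))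
  have heq : ∀ t : ℕ, N < t → Φ t = Ψ t := by
    intro t ht
    rw [hΦ, hΨ]
    have h0 : (d.natAbs : ℤ) + ∑ i, (((h * b i : ℤ).natAbs : ℕ) : ℤ) < t := by
      rw [hN] at ht
      exact_mod_cast ht
    have h1 : ∀ i, (((h * b i : ℤ).natAbs : ℕ) : ℤ) ≤ ∑ i, (((h * b i : ℤ).natAbs : ℕ) : ℤ) := fun i =>
      single_le_sum (f := fun i => (((h * b i : ℤ).natAbs : ℕ) : ℤ)) (fun _ _ => by positivity) (mem_univ i)
    have hs0 : 0 ≤ ∑ i, (((h * b i : ℤ).natAbs : ℕ) : ℤ) := sum_nonneg fun _ _ => by positivity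
    show lam (a₀ * t + d) * ∏ i, lam (a i * t + h * b i) = _
    rw [lam_pos (a₀ * t + d)]
    · congr 1
      apply prod_congr rfl
      intro i _
      rw [lam_pos]
      have h2 := h1 i
      have h3 : (t : ℤ) ≤ a i * t := by
        have : (1 : ℤ) ≤ a i := by exact_mod_cast ha i
        nlinarith
      have h4 : -((h * b i : ℤ).natAbs : ℤ) ≤ h * b i := by omega
      linarith
    · have h3 : (t : ℤ) ≤ a₀ * t := by
        have : (1 : ℤ) ≤ a₀ := by exact_mod_cast ha₀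
        nlinarith
      have h4 : -(d.natAbs : ℤ) ≤ d := by omega
      linarith
  have e1 : ave (pol a b a₀ h d) q r x = (1 / (x : ℝ)) * ∑ t ∈ Icc 1 x,
      (if (t : ℤ) ≡ r [ZMOD q] then (1 : ℝ) else 0) * Φ t := by
    unfold ave
    rw [sum_filter]
    congr 1
    apply sum_congr rfl
    intro t _
    rw [eval_pol]
    split_ifs
    · rw [one_mul]
    · rw [zero_mul]
  have e2 : Pool.Agent.Y956.CP.cor (wt q r) a b a₀ h d x = (((1 / (x : ℝ)) * ∑ t ∈ Icc 1 x,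
      (if (t : ℤ) ≡ r [ZMOD q] then (1 : ℝ) else 0) * Ψ t : ℝ) : ℂ) := by
    unfold Pool.Agent.Y956.CP.cor Pool.Agent.Y956.CP.wav wt
    push_cast
    congr 1
    apply sum_congr rfl
    intro t _
    congr 1
    · split_ifs <;> simp
    · rw [hΨ]
      push_cast
      rfl
  rw [e1, e2, Complex.norm_real, Real.norm_eq_abs]
  have e3 : (1 / (x : ℝ)) * ∑ t ∈ Icc 1 x, (if (t : ℤ) ≡ r [ZMOD q] then (1 : ℝ) else 0) * Φ t =
      (1 / (x : ℝ)) * ∑ t ∈ Icc 1 x, (if (t : ℤ) ≡ r [ZMOD q] then (1 : ℝ) else 0) * Ψ t +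
      (1 / (x : ℝ)) * ∑ t ∈ Icc 1 x, (if (t : ℤ) ≡ r [ZMOD q] then (1 : ℝ) else 0) * (Φ t - Ψ t) := by
    rw [← mul_add, ← sum_add_distrib]
    congr 1
    apply sum_congr rfl
    intro t _
    ring
  rw [e3]
  refine (abs_add_le _ _).trans (add_le_add le_rfl ?_)
  rw [abs_mul, abs_of_pos (by positivity : (0 : ℝ) < 1 / (x : ℝ)), mul_comm (2 * (N : ℝ))]
  apply mul_le_mul_of_nonneg_left _ (by positivity)
  calc |∑ t ∈ Icc 1 x, (if (t : ℤ) ≡ r [ZMOD q] then (1 : ℝ) else 0) * (Φ t - Ψ t)|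
      ≤ ∑ t ∈ Icc 1 x, |(if (t : ℤ) ≡ r [ZMOD q] then (1 : ℝ) else 0) * (Φ t - Ψ t)| := abs_sum_le_sum_abs _ _
    _ ≤ ∑ t ∈ Icc 1 x, (if t ≤ N then (2 : ℝ) else 0) := by
        apply sum_le_sum
        intro t _
        have h1 : |(if (t : ℤ) ≡ r [ZMOD q] then (1 : ℝ) else 0)| ≤ 1 := by
          split_ifs <;> simp
        by_cases h2 : t ≤ N
        · rw [if_pos h2, abs_mul]
          have h3 : |Φ t - Ψ t| ≤ 2 := by
            have h4 := abs_le.1 (hΦ1 t)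
            have h5 := abs_le.1 (hΨ1 t)
            rw [abs_le]
            constructor <;> linarith [h4.1, h4.2, h5.1, h5.2]
          calc _ ≤ (1 : ℝ) * 2 := mul_le_mul h1 h3 (abs_nonneg _) (by norm_num)
            _ = 2 := by norm_num
        · rw [if_neg h2, heq t (by omega), sub_self, mul_zero, abs_zero]
    _ = 2 * ((((Icc 1 x).filter (fun t => t ≤ N)).card : ℕ) : ℝ) := by
        rw [← sum_filter, sum_const, nsmul_eq_mul, mul_comm]
    _ ≤ 2 * (N : ℝ) := by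
        have h1 : ((Icc 1 x).filter (fun t => t ≤ N)).card ≤ N := by
          calc ((Icc 1 x).filter (fun t => t ≤ N)).card ≤ (Icc 1 N).card := by
                apply card_le_card
                intro t ht
                rw [mem_filter, mem_Icc] at ht
                rw [mem_Icc]
                exact ⟨ht.1.1, ht.2⟩
            _ = N := by rw [Nat.card_Icc, Nat.add_sub_cancel]
        have h2 : ((((Icc 1 x).filter (fun t => t ≤ N)).card : ℕ) : ℝ) ≤ N := by exact_mod_cast h1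
        linarith

lemma sum_sq_le (Y W : ℕ) (hY : 1 ≤ Y) : ∑ x ∈ Ioc Y W, (1 / (x : ℝ)) * (1 / (x : ℝ)) ≤ 1 := by
  have h : ∀ W : ℕ, Y ≤ W → ∑ x ∈ Ioc Y W, (1 / (x : ℝ)) * (1 / (x : ℝ)) ≤ 1 / (Y : ℝ) - 1 / (W : ℝ) := by
    intro W hW
    induction W, hW using Nat.le_induction with
    | base => simp
    | succ W hW ih =>
      have hW0 : (0 : ℝ) < W := by exact_mod_cast lt_of_lt_of_le hY hW
      rw [sum_Ioc_succ_top hW]
      have e : (1 / ((W + 1 : ℕ) : ℝ)) * (1 / ((W + 1 : ℕ) : ℝ)) ≤ 1 / (W : ℝ) - 1 / ((W + 1 : ℕ) : ℝ) := by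
        push_cast
        rw [div_mul_div_comm, one_mul, div_sub_div _ _ hW0.ne' (by positivity), div_le_div_iff₀ (by positivity)
          (by positivity)]
        nlinarith
      linarith
  have hY0 : (1 : ℝ) ≤ Y := by exact_mod_cast hY
  rcases le_total Y W with h1 | h1
  · have h2 := h W h1
    have h3 : 1 / (Y : ℝ) ≤ 1 := by rw [div_le_one (by linarith)]; exact hY0
    have h4 : 0 ≤ 1 / (W : ℝ) := by positivity
    linarith
  · rw [Ioc_eq_empty_of_le h1]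
    simp

theorem result : ∀ (k A : ℕ) (ε : ℝ), 0 < ε → ∃ C : ℝ, ∃ H₀ : ℕ, ∀ (a : Fin k → ℕ) (a₀ : ℕ) (b : Fin k → ℤ),
    (∀ i, 1 ≤ a i ∧ a i ≤ A) → 1 ≤ a₀ → a₀ ≤ A → ∀ (q : ℕ) (r : ℤ), 1 ≤ q → q ≤ A →
    ∀ S : Finset (ℕ × ℤ), (∀ e ∈ S, 1 ≤ e.1) →
    (∀ e ∈ S, ∀ e' ∈ S, e ≠ e' → e.2 * (e'.1 : ℤ) ≠ e'.2 * (e.1 : ℤ)) →
    ∃ ω₀ : ℕ, ∀ Y W : ℕ, 1 ≤ Y → ω₀ * Y ≤ W →
      ∑ e ∈ exc a b a₀ q r ε S Y W, 1 / (e.1 : ℝ) ≤ C ∧
      ∀ H : ℕ, H₀ ≤ H → (((exc a b a₀ q r ε S Y W).filter (fun e => e.1 ≤ H)).card : ℝ) ≤ ε * H := by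
  classical
  intro k A ε hε
  obtain ⟨C, H₀, h⟩ := Pool.Agent.Y956.CP.fin_lam Pool.Agent.Y956.CP.scaled k A A (ε / 2) (by positivity)
  refine ⟨C, H₀, fun a a₀ b ha ha₀ ha₀A q r hq hqA S hS1 hS2 => ?_⟩
  obtain ⟨ω₀, h1⟩ := h (wt q r) (wt_lpq q A hq hqA r _ (by positivity)) a a₀ b ha ha₀ ha₀A S ⟨hS1, hS2⟩
  have hM : ∀ e : ℕ × ℤ, ∃ M : ℝ, 0 ≤ M ∧ ∀ x : ℕ, 1 ≤ x → |ave (pol a b a₀ e.1 e.2) q r x| ≤
      ‖Pool.Agent.Y956.CP.cor (wt q r) a b a₀ e.1 e.2 x‖ + M * (1 / (x : ℝ)) := fun e =>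
    ave_cor a b a₀ (fun i => (ha i).1) ha₀ q r e.1 e.2
  choose M hM0 hM1 using hM
  set B : ℝ := ∑ e ∈ S, M e with hB
  have hB0 : 0 ≤ B := sum_nonneg fun e _ => hM0 e
  have hMB : ∀ e ∈ S, M e ≤ B := fun e he => single_le_sum (f := M) (fun e _ => hM0 e) he
  obtain ⟨n₀, hn₀⟩ := exists_nat_ge (Real.exp (2 * B / ε + 1))
  refine ⟨max ω₀ n₀, fun Y W hY hW => ?_⟩
  have hY0 : (0 : ℝ) < Y := by exact_mod_cast hY
  obtain ⟨h2, h3⟩ := h1 Y W hY ((Nat.mul_le_mul_right Y (le_max_left _ _)).trans hW)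
  have hWY : (n₀ : ℝ) ≤ (W : ℝ) / Y := by
    rw [le_div_iff₀ hY0]
    exact_mod_cast (Nat.mul_le_mul_right Y (le_max_right ω₀ n₀)).trans hW
  have hlog : 2 * B / ε + 1 ≤ Real.log ((W : ℝ) / Y) := by
    rw [Real.le_log_iff_exp_le (lt_of_lt_of_le (Real.exp_pos _) (hn₀.trans hWY))]
    exact hn₀.trans hWY
  have hlog0 : 0 < Real.log ((W : ℝ) / Y) := by
    have : 0 ≤ 2 * B / ε := by positivity
    linarith
  have hsub : exc a b a₀ q r ε S Y W ⊆ S.filter (fun e => ε / 2 < Pool.Agent.Y956.CB.WA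
      (fun x => ‖Pool.Agent.Y956.CP.cor (wt q r) a b a₀ e.1 e.2 x‖) Y W) := by
    intro e he
    unfold exc at he
    rw [mem_filter] at he ⊢
    refine ⟨he.1, ?_⟩
    have h4 : scales (fun x => |ave (pol a b a₀ e.1 e.2) q r x|) Y W ≤ Pool.Agent.Y956.CB.WA
        (fun x => ‖Pool.Agent.Y956.CP.cor (wt q r) a b a₀ e.1 e.2 x‖) Y W + ε / 2 := by
      unfold scales Pool.Agent.Y956.CB.WA
      calc (1 / Real.log ((W : ℝ) / Y)) * ∑ x ∈ Ioc Y W, (1 / (x : ℝ)) * |ave (pol a b a₀ e.1 e.2) q r x|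
          ≤ (1 / Real.log ((W : ℝ) / Y)) * ∑ x ∈ Ioc Y W, ((1 / (x : ℝ)) *
            ‖Pool.Agent.Y956.CP.cor (wt q r) a b a₀ e.1 e.2 x‖ + B * ((1 / (x : ℝ)) * (1 / (x : ℝ)))) := by
            apply mul_le_mul_of_nonneg_left _ (by positivity)
            apply sum_le_sum
            intro x hx
            rw [mem_Ioc] at hx
            have hx0 : (0 : ℝ) < x := by
              have : 0 < x := by omega
              exact_mod_cast this
            have h5 := hM1 e x (by omega)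
            have h6 := hMB e he.1
            have h7 : M e * (1 / (x : ℝ)) ≤ B * (1 / (x : ℝ)) := mul_le_mul_of_nonneg_right h6 (by positivity)
            have h8 : (1 / (x : ℝ)) * |ave (pol a b a₀ e.1 e.2) q r x| ≤ (1 / (x : ℝ)) *
                (‖Pool.Agent.Y956.CP.cor (wt q r) a b a₀ e.1 e.2 x‖ + B * (1 / (x : ℝ))) :=
              mul_le_mul_of_nonneg_left (by linarith) (by positivity)
            linarith [h8]
        _ = (1 / Real.log ((W : ℝ) / Y)) * ∑ x ∈ Ioc Y W, (1 / (x : ℝ)) *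
              ‖Pool.Agent.Y956.CP.cor (wt q r) a b a₀ e.1 e.2 x‖ +
            (1 / Real.log ((W : ℝ) / Y)) * (B * ∑ x ∈ Ioc Y W, (1 / (x : ℝ)) * (1 / (x : ℝ))) := by
            rw [sum_add_distrib, mul_add, mul_sum (a := B)]
        _ ≤ _ := by
            apply add_le_add le_rfl
            have h9 : B * ∑ x ∈ Ioc Y W, (1 / (x : ℝ)) * (1 / (x : ℝ)) ≤ B :=
              (mul_le_mul_of_nonneg_left (sum_sq_le Y W hY) hB0).trans (mul_one B).le
            rw [one_div, inv_mul_le_iff₀ hlog0]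
            have h10 : ε / 2 * (2 * B / ε + 1) ≤ ε / 2 * Real.log ((W : ℝ) / Y) :=
              mul_le_mul_of_nonneg_left hlog (by positivity)
            have h11 : ε / 2 * (2 * B / ε + 1) = B + ε / 2 := by
              field_simp
            have h12 : Real.log ((W : ℝ) / Y) * (ε / 2) = ε / 2 * Real.log ((W : ℝ) / Y) := mul_comm _ _
            linarith
    linarith [he.2]
  constructor
  · exact (sum_le_sum_of_subset_of_nonneg hsub fun _ _ _ => by positivity).trans h2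
  · intro H hH
    have h4 := h3 H hH
    have h5 : (((exc a b a₀ q r ε S Y W).filter (fun e => e.1 ≤ H)).card : ℝ) ≤
        (((S.filter (fun e => ε / 2 < Pool.Agent.Y956.CB.WA
          (fun x => ‖Pool.Agent.Y956.CP.cor (wt q r) a b a₀ e.1 e.2 x‖) Y W)).filter
          (fun e => e.1 ≤ H)).card : ℝ) := by
      exact_mod_cast card_le_card (filter_subset_filter _ hsub)
    have h6 : ε / 2 * (H : ℝ) ≤ ε * H := by
      have : (0 : ℝ) ≤ H := by positivity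
      nlinarith
    linarith

end Pool.Agent.Results.MP_648c71_nt.DilatedLinearFactors
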