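import Mathlib
import Pool.Agent.Y122.MU.LamLaw

set_option autoImplicit false

/-!
# Chowla's conjecture for the values of all polynomials, for all dilations `α` outside a null set

For a real number `α > 0` we consider the sums of `λ(⌊α f(t)⌋)` over `1 ≤ t ≤ N`, `t ≡ r` modulo `q`.  For
`α = 1` these are the sums of Chowla's conjecture.  For every degree `d ≥ 1` there are `η > 0` and a set `E d` of
Hausdorff dimension less than one such that for all `α > 0` outside `E d` ALL integer polynomials `f` of degree `d`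
(square free or not) have cancellation by every power of `log N`, uniformly in all progressions to moduli
`q ≤ N ^ η`.  In particular there is one set of measure zero such that for every other `α > 0` the whole statement
of the conjecture holds, with `⌊α f(t)⌋` in place of `f(t)`.

Proof (libraries `Pool.Agent.Y122.MH` and `Pool.Agent.Y122.MU`, new, on top of van der Corput's method from
the starting library).  For `a = log α` and an arbitrary set `T` of positive integers, the number of the `n`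
in a short interval `(X, Y]` and in a given residue class modulo `q ≤ X ^ (1/4)` with `⌊α f(n)⌋ ∈ T` is
compared with the corresponding integral, in mean square over `a` in an interval of length one: the Fourier
transform in `a` of the difference is the Fourier transform of the indicator of `T` on the logarithmic scale times
the difference of an exponential sum and an exponential integral with phase `ξ log f`; for `|ξ| ≤ X ^ M` this
difference is at most `X ^ (1 - κ)`, where `κ` depends only on the degree, and higher frequencies are cut off since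
the indicator has bounded variation.  So the parameters where the error is large lie in few short intervals, which
bounds the dimension.  The integral is small by the prime number theorem for `λ` (starting library) and partial
integration.
-/

namespace Pool.Agent.Results.MP_648c71_nt.MetricChowla

open Filter Topology MeasureTheory Polynomial

/-- The Liouville function on the integers, `λ(-m) = λ(m)` and `λ(0) = 0`. -/
noncomputable def lam (n : ℤ) : ℝ := if n = 0 then 0 else (-1) ^ ArithmeticFunction.cardFactors n.natAbs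

/-- The sum of `λ(⌊α f(t)⌋)` over the `t` with `1 ≤ t ≤ N` and `t ≡ r` modulo `q`. -/
noncomputable def S (α : ℝ) (f : ℤ[X]) (q r N : ℕ) : ℝ :=
  ∑ t ∈ (Finset.Icc 1 N).filter (fun t : ℕ => t ≡ r [MOD q]), lam ⌊α * ((f.eval (t : ℤ) : ℤ) : ℝ)⌋

/-- The statement of the conjecture with `⌊α f(t)⌋` in place of `f(t)`. -/
def Law (α : ℝ) : Prop :=
  ∀ f : ℤ[X], 0 < f.natDegree → f.IsPrimitive → Squarefree f → ∀ q r : ℕ, 1 ≤ q →
    Tendsto (fun N : ℕ => S α f q r N / N) atTop (𝓝 0)

lemma S_one (f : ℤ[X]) (q r N : ℕ) :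
    S 1 f q r N = ∑ t ∈ (Finset.Icc 1 N).filter (fun t : ℕ => t ≡ r [MOD q]), lam (f.eval (t : ℤ)) := by
  unfold S
  refine Finset.sum_congr rfl fun t _ => ?_
  rw [one_mul, Int.floor_intCast]

lemma strong (d : ℕ) (hd : 1 ≤ d) : ∃ η : ℝ, 0 < η ∧ ∃ E : Set ℝ, dimH E < 1 ∧
    ∀ α : ℝ, 0 < α → α ∉ E → ∀ f : ℤ[X], f.natDegree = d →
    ∀ K : ℕ, ∀ᶠ N : ℕ in atTop, ∀ q r : ℕ, 1 ≤ q → (q : ℝ) ≤ (N : ℝ) ^ η →
      |S α f q r N| ≤ (N : ℝ) / q / Real.log N ^ K :=
  Pool.Agent.Y122.MU.lam_law d hd

theorem result :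
    (∀ (f : ℤ[X]) (q r N : ℕ), S 1 f q r N =
      ∑ t ∈ (Finset.Icc 1 N).filter (fun t : ℕ => t ≡ r [MOD q]), lam (f.eval (t : ℤ))) ∧
    ∃ E : ℕ → Set ℝ, (∀ d, dimH (E d) < 1) ∧ volume (⋃ d, E d) = 0 ∧
      (∀ d : ℕ, 1 ≤ d → ∃ η : ℝ, 0 < η ∧ ∀ α : ℝ, 0 < α → α ∉ E d → ∀ f : ℤ[X], f.natDegree = d →
        ∀ K : ℕ, ∀ᶠ N : ℕ in atTop, ∀ q r : ℕ, 1 ≤ q → (q : ℝ) ≤ (N : ℝ) ^ η →
          |S α f q r N| ≤ (N : ℝ) / q / Real.log N ^ K) ∧
      ∀ α : ℝ, 0 < α → α ∉ ⋃ d, E d → Law α := by
  refine ⟨S_one, ?_⟩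
  have hex : ∀ d : ℕ, ∃ E : Set ℝ, dimH E < 1 ∧ (1 ≤ d → ∃ η : ℝ, 0 < η ∧
      ∀ α : ℝ, 0 < α → α ∉ E → ∀ f : ℤ[X], f.natDegree = d →
      ∀ K : ℕ, ∀ᶠ N : ℕ in atTop, ∀ q r : ℕ, 1 ≤ q → (q : ℝ) ≤ (N : ℝ) ^ η →
        |S α f q r N| ≤ (N : ℝ) / q / Real.log N ^ K) := by
    intro d
    by_cases hd : 1 ≤ d
    · obtain ⟨η, h1, E, h2, h3⟩ := strong d hd
      exact ⟨E, h2, fun _ => ⟨η, h1, h3⟩⟩
    · exact ⟨∅, by rw [dimH_empty]; exact zero_lt_one, fun h => absurd h hd⟩
  choose E hE h using hex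
  refine ⟨E, hE, ?_, h, ?_⟩
  · rw [measure_iUnion_null_iff]
    intro d
    have h1 := hausdorffMeasure_of_dimH_lt (s := E d) (d := 1) (by rw [ENNReal.coe_one]; exact hE d)
    rw [NNReal.coe_one, hausdorffMeasure_real] at h1
    exact h1
  · intro α hα hαE f hf _ _ q r hq
    obtain ⟨η, hη, hlaw⟩ := h f.natDegree hf
    have h1 := hlaw α hα (fun hmem => hαE (Set.mem_iUnion.2 ⟨_, hmem⟩)) f rfl 1
    have hqev : ∀ᶠ N : ℕ in atTop, (q : ℝ) ≤ (N : ℝ) ^ η :=
      ((tendsto_rpow_atTop hη).comp tendsto_natCast_atTop_atTop).eventually_ge_atTop (q : ℝ)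
    have hlog : Tendsto (fun N : ℕ => 1 / Real.log N) atTop (𝓝 0) :=
      (Real.tendsto_log_atTop.comp tendsto_natCast_atTop_atTop).const_div_atTop 1
    refine squeeze_zero_norm' ?_ hlog
    filter_upwards [h1, hqev, eventually_ge_atTop 2] with N h2 h3 h4
    have h5 := h2 q r hq h3
    have hN : (1 : ℝ) < N := by exact_mod_cast (by omega : 1 < N)
    have hN0 : (0 : ℝ) < N := by linarith
    have hl : 0 < Real.log N := Real.log_pos hN
    have hq1 : (1 : ℝ) ≤ q := by exact_mod_cast hq
    rw [Real.norm_eq_abs, abs_div, abs_of_pos hN0, div_le_iff₀ hN0]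
    refine h5.trans ?_
    rw [pow_one]
    calc (N : ℝ) / q / Real.log N ≤ N / Real.log N := by
          gcongr
          exact div_le_self hN0.le hq1
      _ = _ := by ring

end Pool.Agent.Results.MP_648c71_nt.MetricChowla
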